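import Pool.Agent.U73.LS.Stm2
import Pool.Agent.U73.LR.Law

set_option autoImplicit false

/-!
# Project LS (helper73), package HI: the uniform bound for the tail over the semistable curves (helper278)

`(a, b) ↦ (27 a, 54 b)` (`3 ∤ a`) and `(a, b) ↦ (a / 3, 2 b / 27)` (`3 ∣ a`) map the pairs of invariants of
the semistable curves injectively to the coefficients of minimal models.
-/

namespace Pool.Agent.U278.LS

open Finset
open Pool.Agent.U73.LR Pool.Agent.U73.LS Pool.Agent.N906.SZ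

theorem k2_of {a b : ℤ} (h : Sm a b) : K2 a b := by
  have := sm_sp h Nat.prime_two
  unfold Sp at this
  simpa using this

theorem k3_of {a b : ℤ} (h : Sm a b) : K3 a b := by
  have := sm_sp h Nat.prime_three
  unfold Sp at this
  simpa using this

theorem sp_of {a b : ℤ} (h : Sm a b) {p : ℕ} (hp : p.Prime) (h5 : 5 ≤ p) :
    ¬ ((p : ℤ) ∣ a ∧ (p : ℤ) ∣ b) := by
  have := sm_sp h hp
  unfold Sp at this
  rwa [if_neg (by omega), if_neg (by omega)] at this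

theorem dz_eq {a b : ℤ} (h : Sm a b) : 1728 * Dz a b = a ^ 3 - b ^ 2 := by
  unfold Dz
  exact Int.mul_ediv_cancel' (rel1728 (k2_of h) (k3_of h))

theorem dz_ne {a b : ℤ} (h : Sm a b) : Dz a b ≠ 0 := by
  intro h0
  have h1 := dz_eq h
  rw [h0, mul_zero] at h1
  exact ((sm_iff a b).1 h).1 (by linarith)

theorem rs_mul (a b : ℤ) : (Dz a b).natAbs = rs a b * Nz a b := by
  unfold rs Nz
  rw [Nat.div_mul_cancel (Nat.prod_primeFactors_dvd _)]

/-- a prime `≥ 5` which divides `Dz` does not divide `a` -/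
theorem not_dvd_a {a b : ℤ} (h : Sm a b) {p : ℕ} (hp : p.Prime) (h5 : 5 ≤ p)
    (hd : (p : ℤ) ∣ Dz a b) : ¬ (p : ℤ) ∣ a := by
  intro ha
  have hpi : Prime (p : ℤ) := Nat.prime_iff_prime_int.1 hp
  have h1 : (p : ℤ) ∣ b ^ 2 := by
    have e : b ^ 2 = a ^ 3 - 1728 * Dz a b := by rw [dz_eq h]; ring
    rw [e]
    exact dvd_sub (dvd_pow ha (by norm_num)) (Dvd.dvd.mul_left hd _)
  exact sp_of h hp h5 ⟨ha, hpi.dvd_of_dvd_pow h1⟩

theorem not_dvd_six {p : ℕ} (h5 : 5 ≤ p) (hp : p.Prime) {i j : ℕ} : ¬ (p : ℤ) ∣ 2 ^ i * 3 ^ j := by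
  intro h
  have hpi : Prime (p : ℤ) := Nat.prime_iff_prime_int.1 hp
  rcases hpi.dvd_or_dvd h with h | h
  · have h1 := Int.le_of_dvd (by norm_num) (hpi.dvd_of_dvd_pow h)
    omega
  · have h1 := Int.le_of_dvd (by norm_num) (hpi.dvd_of_dvd_pow h)
    omega

/-- the comparison of the ratios -/
theorem rs_le {a b a' b' : ℤ} (h : Sm a b) {i j : ℕ} (hD : Dd a' b' = 2 ^ i * 3 ^ j * Dz a b)
    (ha : ∀ p : ℕ, p.Prime → 5 ≤ p → (p : ℤ) ∣ a' → (p : ℤ) ∣ a) : rs a b ≤ rt a' b' := by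
  have hN : Nc a' b' ≤ Nz a b := by
    rw [Pool.Agent.N157.SZ.nc_eq]
    have e : ∏ p ∈ (Dd a' b').natAbs.primeFactors.filter (fun p => 5 ≤ p), p ^ fe p a' =
        ∏ p ∈ (Dd a' b').natAbs.primeFactors.filter (fun p => 5 ≤ p), p := by
      refine prod_congr rfl fun p hp => ?_
      obtain ⟨h1, h5⟩ := mem_filter.1 hp
      have hpp := Nat.prime_of_mem_primeFactors h1
      have hpd : (p : ℤ) ∣ Dd a' b' := Int.natCast_dvd.2 (Nat.dvd_of_mem_primeFactors h1)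
      have hpi : Prime (p : ℤ) := Nat.prime_iff_prime_int.1 hpp
      rw [hD] at hpd
      have hdz : (p : ℤ) ∣ Dz a b := (hpi.dvd_or_dvd hpd).resolve_left (not_dvd_six h5 hpp)
      have hna := not_dvd_a h hpp h5 hdz
      have hfe : fe p a' = 1 := by
        unfold fe
        rw [if_neg (by omega), if_neg fun h' => hna (ha p hpp h5 h')]
      rw [hfe, pow_one]
    rw [e]
    unfold Nz
    refine prod_le_prod_of_subset_of_one_le' ?_ fun p hp _ => ?_
    · intro p hp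
      obtain ⟨h1, h5⟩ := mem_filter.1 hp
      have hpp := Nat.prime_of_mem_primeFactors h1
      have hpd : (p : ℤ) ∣ Dd a' b' := Int.natCast_dvd.2 (Nat.dvd_of_mem_primeFactors h1)
      have hpi : Prime (p : ℤ) := Nat.prime_iff_prime_int.1 hpp
      rw [hD] at hpd
      have hdz : (p : ℤ) ∣ Dz a b := (hpi.dvd_or_dvd hpd).resolve_left (not_dvd_six h5 hpp)
      exact Nat.mem_primeFactors.2 ⟨hpp, Int.natCast_dvd.1 hdz, Int.natAbs_ne_zero.2 (dz_ne h)⟩
    · exact (Nat.prime_of_mem_primeFactors hp).one_lt.le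
  have h1 : (Dz a b).natAbs ≤ (Dd a' b').natAbs := by
    rw [hD, Int.natAbs_mul]
    have : 0 < ((2 : ℤ) ^ i * 3 ^ j).natAbs := by
      rw [Int.natAbs_pos]
      positivity
    exact Nat.le_mul_of_pos_left _ this
  have h2 : rs a b * Nc a' b' ≤ rt a' b' * Nc a' b' := by
    rw [← rt_mul]
    refine le_trans (Nat.mul_le_mul_left _ hN) ?_
    rw [← rs_mul]
    exact h1
  exact Nat.le_of_mul_le_mul_right h2 (nc_pos a' b')

theorem dd_ne {a b a' b' : ℤ} (h : Sm a b) {i j : ℕ} (hD : Dd a' b' = 2 ^ i * 3 ^ j * Dz a b) :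
    Dd a' b' ≠ 0 := by
  rw [hD]
  exact mul_ne_zero (by positivity) (dz_ne h)

theorem two_case {a b : ℤ} (h : Sm a b) (h1 : (16 : ℤ) ∣ a) (h2 : (32 : ℤ) ∣ b) : False := by
  rcases k2_of h with ⟨o1, -, -⟩ | ⟨-, o2⟩
  · exact o1 ((show (2 : ℤ) ∣ 16 by norm_num).trans h1)
  · omega

/-- the first map -/
theorem map1 {a b : ℤ} (h : Sm a b) (h3 : ¬ (3 : ℤ) ∣ a) :
    Mn (27 * a) (54 * b) ∧ rs a b ≤ rt (27 * a) (54 * b) := by
  have hD : Dd (27 * a) (54 * b) = 2 ^ 8 * 3 ^ 12 * Dz a b := by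
    have e := dz_eq h
    unfold Dd
    linear_combination (-78732) * e
  refine ⟨⟨dd_ne h hD, ?_⟩, rs_le h hD ?_⟩
  · rintro p hp ⟨h1, h2⟩
    by_cases e2 : p = 2
    · subst e2
      push_cast at h1 h2
      norm_num at h1 h2
      exact two_case h (by omega) (by omega)
    by_cases e3 : p = 3
    · subst e3
      push_cast at h1 h2
      norm_num at h1 h2
      exact h3 (by omega)
    have h5 : 5 ≤ p := by
      have := hp.two_le
      by_contra hcon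
      have h4 : p = 4 := by omega
      subst h4
      exact absurd hp (by norm_num)
    have hpi : Prime (p : ℤ) := Nat.prime_iff_prime_int.1 hp
    have g1 : (p : ℤ) ∣ 27 * a := (dvd_pow_self _ (by norm_num)).trans h1
    have g2 : (p : ℤ) ∣ 54 * b := (dvd_pow_self _ (by norm_num)).trans h2
    have g3 : ¬ (p : ℤ) ∣ 27 := by
      have := not_dvd_six h5 hp (i := 0) (j := 3)
      norm_num at this
      exact this
    have g4 : ¬ (p : ℤ) ∣ 54 := by
      have := not_dvd_six h5 hp (i := 1) (j := 3)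
      norm_num at this
      exact this
    exact sp_of h hp h5 ⟨(hpi.dvd_or_dvd g1).resolve_left g3, (hpi.dvd_or_dvd g2).resolve_left g4⟩
  · intro p hp h5 hd
    have hpi : Prime (p : ℤ) := Nat.prime_iff_prime_int.1 hp
    have g3 : ¬ (p : ℤ) ∣ 27 := by
      have := not_dvd_six h5 hp (i := 0) (j := 3)
      norm_num at this
      exact this
    exact (hpi.dvd_or_dvd hd).resolve_left g3

/-- the second map -/
theorem map2 {a b : ℤ} (h : Sm a b) (h3 : (3 : ℤ) ∣ a) : (27 : ℤ) ∣ b ∧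
    Mn (a / 3) (2 * (b / 27)) ∧ rs a b ≤ rt (a / 3) (2 * (b / 27)) := by
  have hk : ¬ (9 : ℤ) ∣ a ∧ (27 : ℤ) ∣ b := by
    rcases k3_of h with ⟨o1, -⟩ | ⟨-, o2, o3⟩
    · exact absurd h3 o1
    · exact ⟨o2, o3⟩
  obtain ⟨h9, h27⟩ := hk
  obtain ⟨u, hu⟩ := h3
  obtain ⟨v, hv⟩ := h27
  have eu : a / 3 = u := by rw [hu]; simp
  have ev : b / 27 = v := by rw [hv]; simp
  rw [eu, ev]
  have hD : Dd u (2 * v) = 2 ^ 8 * 3 ^ 0 * Dz a b := by
    have e := dz_eq h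
    rw [hu, hv] at e
    have e' : Dz a b = Dz (3 * u) (27 * v) := by rw [← hu, ← hv]
    unfold Dd
    rw [e']
    have e2 : 27 * (64 * Dz (3 * u) (27 * v)) = 27 * (u ^ 3 - 27 * v ^ 2) := by linarith
    linarith
  refine ⟨⟨v, hv⟩, ⟨dd_ne h hD, ?_⟩, rs_le h hD ?_⟩
  · rintro p hp ⟨h1, h2⟩
    by_cases e2 : p = 2
    · subst e2
      push_cast at h1 h2
      norm_num at h1 h2
      exact two_case h (by omega) (by omega)
    by_cases e3 : p = 3
    · subst e3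
      push_cast at h1 h2
      norm_num at h1 h2
      exact h9 (by omega)
    have h5 : 5 ≤ p := by
      have := hp.two_le
      by_contra hcon
      have h4 : p = 4 := by omega
      subst h4
      exact absurd hp (by norm_num)
    have hpi : Prime (p : ℤ) := Nat.prime_iff_prime_int.1 hp
    have g1 : (p : ℤ) ∣ u := (dvd_pow_self _ (by norm_num)).trans h1
    have g2 : (p : ℤ) ∣ 2 * v := (dvd_pow_self _ (by norm_num)).trans h2
    have g4 : ¬ (p : ℤ) ∣ 2 := by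
      have := not_dvd_six h5 hp (i := 1) (j := 0)
      norm_num at this
      exact this
    refine sp_of h hp h5 ⟨?_, ?_⟩
    · rw [hu]; exact Dvd.dvd.mul_left g1 _
    · rw [hv]; exact Dvd.dvd.mul_left ((hpi.dvd_or_dvd g2).resolve_left g4) _
  · intro p hp h5 hd
    rw [hu]; exact Dvd.dvd.mul_left hd _

theorem cnt1 {X K : ℝ} (hX : 1 ≤ X) : cnt X (fun a b => (Sm a b ∧ K ≤ rs a b) ∧ ¬ (3 : ℤ) ∣ a) ≤
    cnt (6 * X) (fun a b => Mn a b ∧ K ≤ rt a b) := by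
  classical
  rw [cnt_def X, cnt_def (6 * X)]
  rw [Nat.cast_le]
  apply card_le_card_of_injOn (fun q : ℤ × ℤ => ((27 * q.1, 54 * q.2) : ℤ × ℤ))
  · intro q hq
    rw [mem_coe, mem_filter, mem_box] at hq
    obtain ⟨⟨b1, b2⟩, ⟨hs, hK⟩, h3⟩ := hq
    obtain ⟨m1, m2⟩ := map1 hs h3
    rw [mem_coe, mem_filter, mem_box]
    refine ⟨⟨?_, ?_⟩, m1, hK.trans (by exact_mod_cast m2)⟩
    · push_cast
      rw [abs_mul, abs_of_pos (by norm_num : (0 : ℝ) < 27)]
      nlinarith [sq_nonneg X]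
    · push_cast
      rw [abs_mul, abs_of_pos (by norm_num : (0 : ℝ) < 54)]
      have : (0 : ℝ) ≤ X ^ 3 := by positivity
      nlinarith
  · intro q _ q' _ hqq
    have h1 := congrArg Prod.fst hqq
    have h2 := congrArg Prod.snd hqq
    simp only at h1 h2
    exact Prod.ext (by omega) (by omega)

theorem cnt2 {X K : ℝ} (hX : 1 ≤ X) : cnt X (fun a b => (Sm a b ∧ K ≤ rs a b) ∧ (3 : ℤ) ∣ a) ≤
    cnt (6 * X) (fun a b => Mn a b ∧ K ≤ rt a b) := by
  classical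
  rw [cnt_def X, cnt_def (6 * X)]
  rw [Nat.cast_le]
  apply card_le_card_of_injOn (fun q : ℤ × ℤ => ((q.1 / 3, 2 * (q.2 / 27)) : ℤ × ℤ))
  · intro q hq
    rw [mem_coe, mem_filter, mem_box] at hq
    obtain ⟨⟨b1, b2⟩, ⟨hs, hK⟩, h3⟩ := hq
    obtain ⟨h27, m1, m2⟩ := map2 hs h3
    rw [mem_coe, mem_filter, mem_box]
    refine ⟨⟨?_, ?_⟩, m1, hK.trans (by exact_mod_cast m2)⟩
    · obtain ⟨u, hu⟩ := h3
      have eu : q.1 / 3 = u := by rw [hu]; simp
      have e1 : (q.1 : ℝ) = 3 * (u : ℝ) := by rw [hu]; push_cast; ring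
      simp only
      rw [eu]
      rw [e1, abs_mul, abs_of_pos (by norm_num : (0 : ℝ) < 3)] at b1
      have := abs_nonneg (u : ℝ)
      nlinarith [sq_nonneg X]
    · obtain ⟨v, hv⟩ := h27
      have ev : q.2 / 27 = v := by rw [hv]; simp
      have e1 : (q.2 : ℝ) = 27 * (v : ℝ) := by rw [hv]; push_cast; ring
      simp only
      rw [ev]
      push_cast
      rw [e1, abs_mul, abs_of_pos (by norm_num : (0 : ℝ) < 27)] at b2
      rw [abs_mul, abs_of_pos (by norm_num : (0 : ℝ) < 2)]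
      have := abs_nonneg (v : ℝ)
      have : (0 : ℝ) ≤ X ^ 3 := by positivity
      nlinarith
  · intro q hq q' hq' hqq
    rw [mem_coe, mem_filter] at hq hq'
    obtain ⟨-, ⟨hs, -⟩, h3⟩ := hq
    obtain ⟨-, ⟨hs', -⟩, h3'⟩ := hq'
    have g := (map2 hs h3).1
    have g' := (map2 hs' h3').1
    have h1 := congrArg Prod.fst hqq
    have h2 := congrArg Prod.snd hqq
    simp only at h1 h2
    exact Prod.ext (by omega) (by omega)

/-- the uniform bound for the tail -/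
theorem t_HI : S_HI := by
  intro ε hε
  obtain ⟨C, hC⟩ := tail_hi ε hε
  refine ⟨2 * |C| * (7776 + (6 : ℝ) ^ (4 + ε)), fun X K hX hK => ?_⟩
  have hXp : 0 < X := by linarith
  have hKp : 0 < K := by linarith
  have h1 : cnt X (fun a b => Sm a b ∧ K ≤ rs a b) ≤
      cnt X (fun a b => (Sm a b ∧ K ≤ rs a b) ∧ ¬ (3 : ℤ) ∣ a) +
      cnt X (fun a b => (Sm a b ∧ K ≤ rs a b) ∧ (3 : ℤ) ∣ a) := by
    refine le_trans (cnt_mono X ?_) (cnt_or X _ _)
    intro a b h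
    by_cases h3 : (3 : ℤ) ∣ a
    · exact Or.inr ⟨h, h3⟩
    · exact Or.inl ⟨h, h3⟩
  have h2 := cnt1 (K := K) hX
  have h3 := cnt2 (K := K) hX
  have h4 := hC (6 * X) K (by linarith) hK
  have h5 : (0 : ℝ) ≤ X ^ 5 * K ^ (-1 + ε) := by positivity
  have h6 : (0 : ℝ) ≤ X ^ (4 + ε) := by positivity
  have h7 : (0 : ℝ) ≤ (6 : ℝ) ^ (4 + ε) := by positivity
  have e1 : (6 * X) ^ (4 + ε) = (6 : ℝ) ^ (4 + ε) * X ^ (4 + ε) :=
    Real.mul_rpow (by norm_num) hXp.le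
  have e2 : (6 * X) ^ 5 * K ^ (-1 + ε) = 7776 * (X ^ 5 * K ^ (-1 + ε)) := by ring
  have h8 : C * ((6 * X) ^ 5 * K ^ (-1 + ε) + (6 * X) ^ (4 + ε)) ≤
      |C| * ((7776 + (6 : ℝ) ^ (4 + ε)) * (X ^ 5 * K ^ (-1 + ε) + X ^ (4 + ε))) := by
    rw [e1, e2]
    have g1 : 7776 * (X ^ 5 * K ^ (-1 + ε)) + (6 : ℝ) ^ (4 + ε) * X ^ (4 + ε) ≤
        (7776 + (6 : ℝ) ^ (4 + ε)) * (X ^ 5 * K ^ (-1 + ε) + X ^ (4 + ε)) := by
      nlinarith [mul_nonneg h7 h5]
    have g2 : 0 ≤ 7776 * (X ^ 5 * K ^ (-1 + ε)) + (6 : ℝ) ^ (4 + ε) * X ^ (4 + ε) := by positivity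
    calc C * (7776 * (X ^ 5 * K ^ (-1 + ε)) + (6 : ℝ) ^ (4 + ε) * X ^ (4 + ε)) ≤
        |C| * (7776 * (X ^ 5 * K ^ (-1 + ε)) + (6 : ℝ) ^ (4 + ε) * X ^ (4 + ε)) :=
          mul_le_mul_of_nonneg_right (le_abs_self C) g2
      _ ≤ _ := mul_le_mul_of_nonneg_left g1 (abs_nonneg C)
  have h9 : 2 * |C| * (7776 + (6 : ℝ) ^ (4 + ε)) * (X ^ 5 * K ^ (-1 + ε) + X ^ (4 + ε)) =
      2 * (|C| * ((7776 + (6 : ℝ) ^ (4 + ε)) * (X ^ 5 * K ^ (-1 + ε) + X ^ (4 + ε)))) := by ring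
  rw [h9]
  linarith

end Pool.Agent.U278.LS
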